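import Mathlib

set_option autoImplicit false

/-!
# The Erdős–Turán Sidon set and squares of its differences modulo a large prime
-/

namespace Q137.GridDist

/-- the Erdős–Turán element -/
def et (p k : ℕ) : ℕ := 2 * p * k + k ^ 2 % p

theorem et_lt {p k : ℕ} (hk : k < p) : et p k < 2 * p ^ 2 := by
  unfold et
  have h1 : k ^ 2 % p < p := Nat.mod_lt _ (by omega)
  have h2 : 2 * p * k + 2 * p ≤ 2 * p ^ 2 := by nlinarith
  omega

theorem et_sidon {p : ℕ} (hp : p.Prime) (hp2 : 2 < p) {a b c e : ℕ} (ha : a < p) (hb : b < p)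
    (hc : c < p) (he : e < p) (h : et p a + et p e = et p c + et p b) :
    (a = c ∧ b = e) ∨ (a = b ∧ c = e) := by
  unfold et at h
  have hra : a ^ 2 % p < p := Nat.mod_lt _ (by omega)
  have hrb : b ^ 2 % p < p := Nat.mod_lt _ (by omega)
  have hrc : c ^ 2 % p < p := Nat.mod_lt _ (by omega)
  have hre : e ^ 2 % p < p := Nat.mod_lt _ (by omega)
  have hsum : a + e = c + b := by
    have h1 : 2 * p * (a + e) + (a ^ 2 % p + e ^ 2 % p) =
        2 * p * (c + b) + (c ^ 2 % p + b ^ 2 % p) := by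
      rw [mul_add, mul_add]; omega
    rcases lt_trichotomy (a + e) (c + b) with hlt | heq | hgt
    · exfalso
      have : 2 * p * (a + e) + 2 * p ≤ 2 * p * (c + b) := by nlinarith
      omega
    · exact heq
    · exfalso
      have : 2 * p * (c + b) + 2 * p ≤ 2 * p * (a + e) := by nlinarith
      omega
  have hr : a ^ 2 % p + e ^ 2 % p = c ^ 2 % p + b ^ 2 % p := by
    have h1 : 2 * p * (a + e) + (a ^ 2 % p + e ^ 2 % p) =
        2 * p * (c + b) + (c ^ 2 % p + b ^ 2 % p) := by
      rw [mul_add, mul_add]; omega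
    rw [hsum] at h1
    omega
  have : Fact p.Prime := ⟨hp⟩
  have hz : ((a : ZMod p)) ^ 2 + (e : ZMod p) ^ 2 = (c : ZMod p) ^ 2 + (b : ZMod p) ^ 2 := by
    have h2 := congrArg (fun n : ℕ => (n : ZMod p)) hr
    simp only [Nat.cast_add, ZMod.natCast_mod, Nat.cast_pow] at h2
    exact h2
  have hz1 : (a : ZMod p) + e = c + b := by exact_mod_cast congrArg (fun n : ℕ => (n : ZMod p)) hsum
  have hprod : ((a : ZMod p) - c) * (2 * ((a : ZMod p) - b)) = 0 := by
    have he' : (e : ZMod p) = c + b - a := by rw [← hz1]; ring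
    rw [he'] at hz
    linear_combination hz
  have hinj : ∀ x y : ℕ, x < p → y < p → (x : ZMod p) = y → x = y := by
    intro x y hx hy hxy
    rw [ZMod.natCast_eq_natCast_iff'] at hxy
    rwa [Nat.mod_eq_of_lt hx, Nat.mod_eq_of_lt hy] at hxy
  rcases mul_eq_zero.1 hprod with h1 | h1
  · left
    have := hinj a c ha hc (sub_eq_zero.1 h1)
    omega
  · right
    have h2 : (2 : ZMod p) ≠ 0 := by
      intro h2
      have h3 : ((2 : ℕ) : ZMod p) = 0 := by exact_mod_cast h2
      rw [ZMod.natCast_eq_zero_iff] at h3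
      have := Nat.le_of_dvd (by norm_num) h3
      omega
    have h3 := (mul_eq_zero.1 h1).resolve_left h2
    have := hinj a b ha hb (sub_eq_zero.1 h3)
    omega

/-- squares of differences of the Sidon set are distinct modulo a prime `M > 4 p ^ 2` -/
theorem et_sq_mod {p M : ℕ} (hp : p.Prime) (hp2 : 2 < p) (hM : M.Prime) (hpM : 4 * p ^ 2 < M)
    {a b c e : ℕ} (ha : a < p) (hb : b < p) (hc : c < p) (he : e < p) (hab : a ≠ b)
    (h : (2 : ZMod M) * ((et p a : ZMod M) - et p b) ^ 2 = 2 * ((et p c : ZMod M) - et p e) ^ 2) :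
    (a = c ∧ b = e) ∨ (a = e ∧ b = c) := by
  have : Fact M.Prime := ⟨hM⟩
  have h2 : (2 : ZMod M) ≠ 0 := by
    intro h2
    have h3 : ((2 : ℕ) : ZMod M) = 0 := by exact_mod_cast h2
    rw [ZMod.natCast_eq_zero_iff] at h3
    have := Nat.le_of_dvd (by norm_num) h3
    nlinarith
  have h3 := mul_left_cancel₀ h2 h
  have hA := et_lt ha
  have hB := et_lt hb
  have hC := et_lt hc
  have hE := et_lt he
  rcases sq_eq_sq_iff_eq_or_eq_neg.1 h3 with h4 | h4
  · -- difference equal
    have h5 : (((et p a + et p e : ℤ) - (et p c + et p b) : ℤ) : ZMod M) = 0 := by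
      push_cast
      linear_combination h4
    rw [ZMod.intCast_zmod_eq_zero_iff_dvd] at h5
    have h6 : ((et p a + et p e : ℤ) - (et p c + et p b) : ℤ) = 0 := by
      apply Int.eq_zero_of_abs_lt_dvd h5
      rw [abs_lt]
      constructor <;> omega
    have h7 : et p a + et p e = et p c + et p b := by omega
    rcases et_sidon hp hp2 ha hb hc he h7 with h8 | h8
    · left; exact h8
    · exact absurd h8.1 hab
  · have h5 : (((et p a + et p c : ℤ) - (et p e + et p b) : ℤ) : ZMod M) = 0 := by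
      push_cast
      linear_combination h4
    rw [ZMod.intCast_zmod_eq_zero_iff_dvd] at h5
    have h6 : ((et p a + et p c : ℤ) - (et p e + et p b) : ℤ) = 0 := by
      apply Int.eq_zero_of_abs_lt_dvd h5
      rw [abs_lt]
      constructor <;> omega
    have h7 : et p a + et p c = et p e + et p b := by omega
    rcases et_sidon hp hp2 ha hb he hc h7 with h8 | h8
    · right; exact h8
    · exact absurd h8.1 hab

/-! ### base-`B` digits -/

/-- the `k`-th base-`B` digit -/
def dig (B x k : ℕ) : ℕ := x / B ^ k % B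

theorem dig_lt {B x k : ℕ} (hB : 0 < B) : dig B x k < B := Nat.mod_lt _ hB

theorem sum_dig_mod (B x m : ℕ) : ∑ k ∈ Finset.range m, B ^ k * dig B x k = x % B ^ m := by
  induction m with
  | zero => simp [Nat.mod_one]
  | succ m ih =>
    rw [Finset.sum_range_succ, ih, pow_succ, Nat.mod_mul]
    rfl

theorem sum_dig {B x m : ℕ} (hx : x < B ^ m) : ∑ k : Fin m, B ^ (k : ℕ) * dig B x k = x := by
  rw [Fin.sum_univ_eq_sum_range (fun k => B ^ k * dig B x k), sum_dig_mod, Nat.mod_eq_of_lt hx]

/-! ### the quadratic form -/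

/-- the polarization identity -/
theorem quad_identity {R : Type*} [CommRing R] {m : ℕ} (u w : Fin m → R) :
    2 * (∑ k, u k * w k) ^ 2 =
      ∑ k, ∑ l, u k * u l * (w k + w l) ^ 2 + ∑ k, (-2 * u k * ∑ l, u l) * w k ^ 2 := by
  have h1 : ∑ k, ∑ l, u k * u l * (w k + w l) ^ 2 =
      (∑ k, u k * w k ^ 2) * (∑ l, u l) + 2 * (∑ k, u k * w k) ^ 2 +
        (∑ k, u k) * (∑ l, u l * w l ^ 2) := by
    have h2 : ∀ k l, u k * u l * (w k + w l) ^ 2 =
        (u k * w k ^ 2) * u l + 2 * ((u k * w k) * (u l * w l)) + u k * (u l * w l ^ 2) := by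
      intro k l; ring
    simp_rw [h2, Finset.sum_add_distrib, ← Finset.mul_sum, ← Finset.sum_mul]
    ring
  have h3 : ∑ k, (-2 * u k * ∑ l, u l) * w k ^ 2 = -2 * ((∑ k, u k * w k ^ 2) * (∑ l, u l)) := by
    rw [Finset.sum_mul, Finset.mul_sum]
    apply Finset.sum_congr rfl
    intro k _
    ring
  rw [h1, h3]
  ring

end Q137.GridDist
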