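import Mathlib
import Pool.Agent.Q137.GridDist.Sidon

set_option autoImplicit false

/-!
# Large distinct-distance subsets of high dimensional grids
-/

namespace Q137.GridDist

/-- squared distance -/
def sqd {ι : Type*} [Fintype ι] (x y : ι → ℤ) : ℤ := ∑ i, (x i - y i) ^ 2

/-- index set of the linear forms -/
abbrev Ix (m : ℕ) := (Fin m × Fin m) ⊕ Fin m

/-- the linear forms -/
def lf {R : Type*} [Add R] {m : ℕ} (w : Fin m → R) : Ix m → R
  | Sum.inl kl => w kl.1 + w kl.2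
  | Sum.inr k => w k

/-- the coefficients -/
def cf {m : ℕ} (M B : ℕ) : Ix m → ZMod M
  | Sum.inl kl => (B : ZMod M) ^ (kl.1 : ℕ) * (B : ZMod M) ^ (kl.2 : ℕ)
  | Sum.inr k => -2 * (B : ZMod M) ^ (k : ℕ) * ∑ l : Fin m, (B : ZMod M) ^ (l : ℕ)

/-- digit vector -/
def dv (m B x : ℕ) : Fin m → ℤ := fun k => (dig B x k : ℤ)

theorem lf_sub {m : ℕ} (w v : Fin m → ℤ) (i : Ix m) : lf w i - lf v i = lf (w - v) i := by
  rcases i with kl | k
  · simp only [lf, Pi.sub_apply]; ring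
  · simp only [lf, Pi.sub_apply]

theorem quad_mod {m M B : ℕ} {x y : ℕ} (hx : x < B ^ m) (hy : y < B ^ m) :
    ∑ i : Ix m, cf M B i * ((lf (dv m B x - dv m B y) i : ℤ) : ZMod M) ^ 2 =
      2 * ((x : ZMod M) - y) ^ 2 := by
  have h := quad_identity (R := ZMod M) (m := m) (fun k => (B : ZMod M) ^ (k : ℕ))
    (fun k => (((dv m B x - dv m B y) k : ℤ) : ZMod M))
  rw [Fintype.sum_sum_type, Fintype.sum_prod_type]
  simp only [lf, cf, Int.cast_add]
  rw [← h]
  congr 2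
  have hx' : ∑ k : Fin m, (B : ZMod M) ^ (k : ℕ) * (dig B x k : ZMod M) = x := by
    have := congrArg (fun n : ℕ => (n : ZMod M)) (sum_dig hx)
    push_cast at this
    exact this
  have hy' : ∑ k : Fin m, (B : ZMod M) ^ (k : ℕ) * (dig B y k : ZMod M) = y := by
    have := congrArg (fun n : ℕ => (n : ZMod M)) (sum_dig hy)
    push_cast at this
    exact this
  rw [← hx', ← hy', ← Finset.sum_sub_distrib]
  apply Finset.sum_congr rfl
  intro k _
  simp only [dv, Pi.sub_apply]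
  push_cast
  ring

/-- the points of the construction, indexed by `Ix m × Fin 4` -/
def pt {m : ℕ} (r : Ix m → Fin 4 → ℕ) (B x : ℕ) : Ix m × Fin 4 → ℤ :=
  fun j => 1 + (r j.1 j.2 : ℤ) * lf (dv m B x) j.1

theorem sqd_pt {m M B : ℕ} [NeZero M] (r : Ix m → Fin 4 → ℕ)
    (hr : ∀ i, ∑ t, r i t ^ 2 = (cf (m := m) M B i).val) (x y : ℕ)
    (hx : x < B ^ m) (hy : y < B ^ m) :
    ((sqd (pt r B x) (pt r B y) : ℤ) : ZMod M) = 2 * ((x : ZMod M) - y) ^ 2 := by
  rw [← quad_mod hx hy]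
  have h1 : sqd (pt r B x) (pt r B y) =
      ∑ i : Ix m, ((cf (m := m) M B i).val : ℤ) * (lf (dv m B x - dv m B y) i) ^ 2 := by
    unfold sqd
    rw [Fintype.sum_prod_type]
    apply Finset.sum_congr rfl
    intro i _
    rw [← hr i]
    push_cast
    rw [Finset.sum_mul]
    apply Finset.sum_congr rfl
    intro t _
    rw [← lf_sub]
    unfold pt
    ring
  rw [h1]
  push_cast
  apply Finset.sum_congr rfl
  intro i _
  rw [ZMod.natCast_zmod_val]

theorem pt_bounds {m M B : ℕ} (hB : 1 ≤ B) (r : Ix m → Fin 4 → ℕ) {R : ℕ}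
    (hr : ∀ i t, r i t ≤ R) (x : ℕ) (j : Ix m × Fin 4) :
    1 ≤ pt r B x j ∧ pt r B x j ≤ 1 + R * (2 * (B - 1)) := by
  have h1 : 0 ≤ lf (dv m B x) j.1 ∧ lf (dv m B x) j.1 ≤ 2 * ((B : ℤ) - 1) := by
    have hd : ∀ k : Fin m, 0 ≤ dv m B x k ∧ dv m B x k ≤ (B : ℤ) - 1 := by
      intro k
      have := dig_lt (x := x) (k := (k : ℕ)) (by omega : 0 < B)
      unfold dv
      constructor <;> omega
    rcases j with ⟨kl | k, t⟩
    · have h1 := hd kl.1
      have h2 := hd kl.2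
      simp only [lf]
      constructor <;> omega
    · have h1 := hd k
      simp only [lf]
      constructor <;> omega
  have h2 : (0:ℤ) ≤ (r j.1 j.2 : ℤ) := by positivity
  have h3 : (r j.1 j.2 : ℤ) ≤ R := by exact_mod_cast hr _ _
  unfold pt
  constructor
  · nlinarith [mul_nonneg h2 h1.1]
  · have : (r j.1 j.2 : ℤ) * lf (dv m B x) j.1 ≤ R * (2 * ((B:ℤ) - 1)) :=
      mul_le_mul h3 h1.2 h1.1 (by positivity)
    linarith

/-- extend a point by coordinates `1` -/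
noncomputable def ext1 {ι : Type*} {d : ℕ} (e : ι ↪ Fin d) (f : ι → ℤ) : Fin d → ℤ :=
  Function.extend e f (fun _ => 1)

theorem ext1_apply {ι : Type*} {d : ℕ} (e : ι ↪ Fin d) (f : ι → ℤ) (i : ι) :
    ext1 e f (e i) = f i := e.injective.extend_apply _ _ _

theorem ext1_off {ι : Type*} {d : ℕ} (e : ι ↪ Fin d) (f : ι → ℤ) (j : Fin d)
    (hj : ¬ ∃ i, e i = j) : ext1 e f j = 1 := Function.extend_apply' _ _ _ hj

theorem sqd_ext1 {ι : Type*} [Fintype ι] {d : ℕ} (e : ι ↪ Fin d) (f g : ι → ℤ) :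
    sqd (ext1 e f) (ext1 e g) = sqd f g := by
  classical
  unfold sqd
  have h1 : ∑ i, (f i - g i) ^ 2 = ∑ j ∈ Finset.univ.map e, (ext1 e f j - ext1 e g j) ^ 2 := by
    rw [Finset.sum_map]
    apply Finset.sum_congr rfl
    intro i _
    rw [ext1_apply, ext1_apply]
  rw [h1]
  symm
  apply Finset.sum_subset (Finset.subset_univ _)
  intro j _ hj
  have : ¬ ∃ i, e i = j := by
    rintro ⟨i, rfl⟩
    exact hj (Finset.mem_map.2 ⟨i, Finset.mem_univ _, rfl⟩)
  rw [ext1_off e f j this, ext1_off e g j this]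
  ring

/-- the main construction -/
theorem exists_points {B s d : ℕ} (hB : 6 ≤ B) (hs : 1 ≤ s) (hd : 4 * ((2 * s) ^ 2 + 2 * s) ≤ d) :
    ∃ (p : ℕ) (P : ℕ → Fin d → ℤ), B ^ s < 3 * p ∧
      (∀ a j, 1 ≤ P a j ∧ P a j ≤ ((4 * B ^ (s + 1) : ℕ) : ℤ)) ∧
      (∀ a b c e, a < p → b < p → c < p → e < p → a ≠ b →
        sqd (P a) (P b) = sqd (P c) (P e) → (a = c ∧ b = e) ∨ (a = e ∧ b = c)) := by
  have hBs : 6 ≤ B ^ s := le_trans hB (Nat.le_self_pow (by omega) B)
  set q := B ^ s / 3 with hq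
  have hq2 : 2 ≤ q := by rw [hq, Nat.le_div_iff_mul_le (by norm_num)]; omega
  have hq3 : 3 * q ≤ B ^ s := Nat.mul_div_le _ _
  have hq4 : B ^ s < 3 * (q + 1) := by
    rw [hq]; omega
  obtain ⟨p, hp, hpq, hp2q⟩ := Nat.exists_prime_lt_and_le_two_mul q (by omega)
  obtain ⟨M, hM, hMp, hM2⟩ := Nat.exists_prime_lt_and_le_two_mul (4 * p ^ 2) (by
    have := hp.pos; positivity)
  have hNe : NeZero M := ⟨hM.pos.ne'⟩
  have hbig : B ^ (2 * s) = (B ^ s) ^ 2 := by rw [mul_comm, pow_mul]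
  have hx : ∀ a, a < p → et p a < B ^ (2 * s) := by
    intro a ha
    refine lt_of_lt_of_le (et_lt ha) ?_
    rw [hbig]
    nlinarith
  have hfour : ∀ i : Ix (2 * s), ∃ r : Fin 4 → ℕ, ∑ t, r t ^ 2 = (cf (m := 2 * s) M B i).val := by
    intro i
    obtain ⟨a, b, c, e, h⟩ := Nat.sum_four_squares (cf (m := 2 * s) M B i).val
    refine ⟨![a, b, c, e], ?_⟩
    rw [← h, Fin.sum_univ_four]
    rfl
  choose r hr using hfour
  have hrle : ∀ i t, r i t ≤ 2 * B ^ s - 1 := by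
    intro i t
    have h1 : r i t ^ 2 ≤ ∑ t, r i t ^ 2 :=
      Finset.single_le_sum (f := fun t => r i t ^ 2) (fun _ _ => Nat.zero_le _)
        (Finset.mem_univ t)
    rw [hr i] at h1
    have h2 := ZMod.val_lt (cf (m := 2 * s) M B i)
    have h3 : r i t ^ 2 < (2 * B ^ s) ^ 2 := by
      calc r i t ^ 2 < M := lt_of_le_of_lt h1 h2
        _ ≤ 2 * (4 * p ^ 2) := hM2
        _ ≤ (2 * B ^ s) ^ 2 := by nlinarith
    have h4 := lt_of_pow_lt_pow_left₀ 2 (Nat.zero_le _) h3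
    omega
  have hcard : Fintype.card (Ix (2 * s) × Fin 4) ≤ Fintype.card (Fin d) := by
    simp only [Fintype.card_prod, Fintype.card_sum, Fintype.card_fin]
    nlinarith
  obtain ⟨e⟩ := Function.Embedding.nonempty_of_card_le hcard
  refine ⟨p, fun a => ext1 e (pt r B (et p a)), by omega, ?_, ?_⟩
  · intro a j
    by_cases hj : ∃ i, e i = j
    · obtain ⟨i, rfl⟩ := hj
      simp only [ext1_apply]
      obtain ⟨h1, h2⟩ := pt_bounds (M := M) (by omega : 1 ≤ B) r hrle (et p a) i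
      refine ⟨h1, h2.trans ?_⟩
      have h5 : ((2 * B ^ s - 1 : ℕ) : ℤ) = 2 * (B : ℤ) ^ s - 1 := by
        rw [Nat.cast_sub (by omega)]
        push_cast
        ring
      rw [h5]
      push_cast
      have h6 : (6:ℤ) ≤ (B:ℤ) ^ s := by exact_mod_cast hBs
      have h7 : (6:ℤ) ≤ (B:ℤ) := by exact_mod_cast hB
      rw [pow_succ]
      nlinarith
    · simp only [ext1_off e _ j hj]
      refine ⟨le_refl _, ?_⟩
      have : 1 ≤ 4 * B ^ (s + 1) := by
        have : 0 < B ^ (s + 1) := by positivity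
        omega
      exact_mod_cast this
  · intro a b c f ha hb hc hf hab h
    simp only [sqd_ext1] at h
    have h1 := congrArg (fun z : ℤ => (z : ZMod M)) h
    simp only [sqd_pt r hr _ _ (hx a ha) (hx b hb), sqd_pt r hr _ _ (hx c hc) (hx f hf)] at h1
    exact et_sq_mod hp (by omega) hM hMp ha hb hc hf hab h1

end Q137.GridDist
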